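import Pool.Agent.MP_2da52b_an.NtMain

/-!
A closed, translation-invariant subalgebra of the Fourier algebra with full spectrum is the whole
Fourier algebra, for every locally compact group; the Tauberian condition is not needed.
-/

open MeasureTheory Pool.Agent.MP_2da52b_an

namespace Pool.Agent.Results.MP_2da52b_an.FullSpectrum

theorem result {G : Type*} [Group G] [TopologicalSpace G] [IsTopologicalGroup G]
    [LocallyCompactSpace G] [T2Space G] [MeasurableSpace G] [BorelSpace G]
    (μ : Measure G) [μ.IsHaarMeasure] [μ.Regular]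
    (A : NonUnitalSubalgebra ℂ (G → ℂ))
    (hclosed : IsFourierClosed μ (A : Set (G → ℂ)))
    (hinv : IsBiInvariant (A : Set (G → ℂ)))
    (hchar : CharsArePoints A)
    (hsep : SeparatesStrongly (A : Set (G → ℂ))) :
    (A : Set (G → ℂ)) = fourierAlgebra μ :=
  Nt.eq_fourierAlgebra ⟨hclosed.1, hclosed.2, fun a ha g => (hinv a ha g).1,
    fun a ha g => (hinv a ha g).2⟩ hchar
    ((hsep.1 1).imp fun _ h => ⟨h.1, fun e => h.2 (congrFun e 1)⟩) hsep.2

/-- The posed question, with the Tauberian hypothesis. -/
theorem q1 {G : Type*} [Group G] [TopologicalSpace G] [IsTopologicalGroup G]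
    [LocallyCompactSpace G] [T2Space G] [MeasurableSpace G] [BorelSpace G]
    (μ : Measure G) [μ.IsHaarMeasure] [μ.Regular]
    (A : NonUnitalSubalgebra ℂ (G → ℂ))
    (hclosed : IsFourierClosed μ (A : Set (G → ℂ)))
    (hinv : IsBiInvariant (A : Set (G → ℂ)))
    (_htaub : IsTauberian μ (A : Set (G → ℂ)))
    (hchar : CharsArePoints A)
    (hsep : SeparatesStrongly (A : Set (G → ℂ))) :
    (A : Set (G → ℂ)) = fourierAlgebra μ :=
  result μ A hclosed hinv hchar hsep

end Pool.Agent.Results.MP_2da52b_an.FullSpectrum
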